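import Pool.Agent.Y548.OF.Sign
import Pool.Agent.Y548.OF.Sep

set_option autoImplicit false

/-! Independence of the square roots over `ℚ(r)`. -/

namespace Pool.Agent.Y548.OF

open Polynomial

/-- the subfield `ℚ(r)` of the reals, for transcendental `r` -/
def V0 (r : ℝ) (hr : Transcendental ℤ r) : Subfield ℝ where
  carrier := {x | ∃ p q : ℤ[X], q ≠ 0 ∧ x = aeval r p / aeval r q}
  mul_mem' := by
    rintro _ _ ⟨p, q, hq, rfl⟩ ⟨p', q', hq', rfl⟩
    exact ⟨p * p', q * q', mul_ne_zero hq hq', by rw [map_mul, map_mul, div_mul_div_comm]⟩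
  one_mem' := ⟨1, 1, one_ne_zero, by simp⟩
  add_mem' := by
    rintro _ _ ⟨p, q, hq, rfl⟩ ⟨p', q', hq', rfl⟩
    have h1 : aeval r q ≠ 0 := fun h => hr ⟨q, hq, h⟩
    have h2 : aeval r q' ≠ 0 := fun h => hr ⟨q', hq', h⟩
    exact ⟨p * q' + p' * q, q * q', mul_ne_zero hq hq', by
      rw [map_mul, map_add, map_mul, map_mul]; field_simp⟩
  zero_mem' := ⟨0, 1, one_ne_zero, by simp⟩
  neg_mem' := by
    rintro _ ⟨p, q, hq, rfl⟩
    exact ⟨-p, q, hq, by rw [map_neg, neg_div]⟩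
  inv_mem' := by
    rintro _ ⟨p, q, hq, rfl⟩
    by_cases hp : p = 0
    · exact ⟨0, 1, one_ne_zero, by simp [hp]⟩
    · exact ⟨q, p, hp, by rw [inv_div]⟩

theorem mem_V0 {r : ℝ} {hr : Transcendental ℤ r} {x : ℝ} :
    x ∈ V0 r hr ↔ ∃ p q : ℤ[X], q ≠ 0 ∧ x = aeval r p / aeval r q := Iff.rfl

theorem aeval_mem_V0 {r : ℝ} (hr : Transcendental ℤ r) (p : ℤ[X]) : aeval r p ∈ V0 r hr :=
  ⟨p, 1, one_ne_zero, by simp⟩

/-- adjoining a square root -/
def adj (K : Subfield ℝ) (w : ℝ) (hw : w ^ 2 ∈ K) : Subfield ℝ where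
  carrier := {x | ∃ a ∈ K, ∃ b ∈ K, x = a + b * w}
  mul_mem' := by
    rintro _ _ ⟨a, ha, b, hb, rfl⟩ ⟨c, hc, d, hd, rfl⟩
    refine ⟨a * c + b * d * w ^ 2, ?_, a * d + b * c, ?_, by ring⟩
    · exact K.add_mem (K.mul_mem ha hc) (K.mul_mem (K.mul_mem hb hd) hw)
    · exact K.add_mem (K.mul_mem ha hd) (K.mul_mem hb hc)
  one_mem' := ⟨1, K.one_mem, 0, K.zero_mem, by ring⟩
  add_mem' := by
    rintro _ _ ⟨a, ha, b, hb, rfl⟩ ⟨c, hc, d, hd, rfl⟩
    exact ⟨a + c, K.add_mem ha hc, b + d, K.add_mem hb hd, by ring⟩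
  zero_mem' := ⟨0, K.zero_mem, 0, K.zero_mem, by ring⟩
  neg_mem' := by
    rintro _ ⟨a, ha, b, hb, rfl⟩
    exact ⟨-a, K.neg_mem ha, -b, K.neg_mem hb, by ring⟩
  inv_mem' := by
    rintro _ ⟨a, ha, b, hb, rfl⟩
    by_cases h0 : a + b * w = 0
    · rw [h0, inv_zero]
      exact ⟨0, K.zero_mem, 0, K.zero_mem, by ring⟩
    by_cases h1 : a - b * w = 0
    · by_cases hb0 : b = 0
      · subst hb0
        refine ⟨a⁻¹, K.inv_mem ha, 0, K.zero_mem, by simp⟩
      · have hw' : w ∈ K := by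
          have : w = a * b⁻¹ := by
            rw [eq_mul_inv_iff_mul_eq₀ hb0]
            linarith [mul_comm b w]
          rw [this]
          exact K.mul_mem ha (K.inv_mem hb)
        refine ⟨(a + b * w)⁻¹, K.inv_mem (K.add_mem ha (K.mul_mem hb hw')), 0, K.zero_mem, by simp⟩
    · have h2 : a ^ 2 - b ^ 2 * w ^ 2 ≠ 0 := by
        have : a ^ 2 - b ^ 2 * w ^ 2 = (a + b * w) * (a - b * w) := by ring
        rw [this]
        exact mul_ne_zero h0 h1
      have h3 : a ^ 2 - b ^ 2 * w ^ 2 ∈ K :=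
        K.sub_mem (K.pow_mem ha 2) (K.mul_mem (K.pow_mem hb 2) hw)
      refine ⟨a * (a ^ 2 - b ^ 2 * w ^ 2)⁻¹, K.mul_mem ha (K.inv_mem h3),
        -b * (a ^ 2 - b ^ 2 * w ^ 2)⁻¹, K.mul_mem (K.neg_mem hb) (K.inv_mem h3), ?_⟩
      rw [eq_comm, ← mul_eq_one_iff_eq_inv₀ h0]
      field_simp
      ring

theorem le_adj (K : Subfield ℝ) (w : ℝ) (hw : w ^ 2 ∈ K) : K ≤ adj K w hw := by
  intro x hx
  exact ⟨x, hx, 0, K.zero_mem, by ring⟩

theorem self_mem_adj (K : Subfield ℝ) (w : ℝ) (hw : w ^ 2 ∈ K) : w ∈ adj K w hw :=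
  ⟨0, K.zero_mem, 1, K.one_mem, by ring⟩

/-- the radicands -/
noncomputable def uu (r : ℝ) (k : ℕ) : ℝ :=
  if st k = 1 then yy (2 * k.unpair.1) r else if st k = 2 then -yy (2 * k.unpair.1) r else 1

/-- the radicands as polynomials -/
noncomputable def UP (k : ℕ) : ℤ[X] :=
  if st k = 1 then YP (2 * k.unpair.1) else if st k = 2 then -YP (2 * k.unpair.1) else 1

theorem aeval_UP (r : ℝ) (k : ℕ) : aeval r (UP k) = uu r k := by
  unfold UP uu
  split_ifs <;> simp [aeval_YP]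

/-- the data of a good real number -/
structure Good (r : ℝ) : Prop where
  tr : Transcendental ℤ r
  sg : ∀ n, 0 < yy (2 * n) r ↔ SA n

theorem exists_good : ∃ r, Good r := by
  classical
  obtain ⟨r, h1, h2⟩ := exists_sign fun n => decide (SA n)
  exact ⟨r, h1, fun n => by rw [h2]; simp⟩

theorem uu_pos {r : ℝ} (hr : Good r) (k : ℕ) : 0 < uu r k := by
  unfold uu
  split_ifs with h1 h2
  · exact (hr.sg _).2 (SA_of_st h1)
  · have h3 : ¬ 0 < yy (2 * k.unpair.1) r := fun h => not_SA_of_SB (SB_of_st h2) ((hr.sg _).1 h)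
    have h4 := yy_ne_zero hr.tr (2 * k.unpair.1)
    have : yy (2 * k.unpair.1) r < 0 := lt_of_le_of_ne (not_lt.1 h3) h4
    linarith
  · exact one_pos

/-- the square roots -/
noncomputable def ww (r : ℝ) (k : ℕ) : ℝ := √(uu r k)

theorem ww_sq {r : ℝ} (hr : Good r) (k : ℕ) : ww r k ^ 2 = uu r k :=
  Real.sq_sqrt (uu_pos hr k).le

theorem ww_of_st_zero {r : ℝ} {k : ℕ} (h : st k = 0) : ww r k = 1 := by
  simp [ww, uu, h]

theorem ww_sq_mem {r : ℝ} (hr : Good r) (k : ℕ) : ww r k ^ 2 ∈ V0 r hr.tr := by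
  rw [ww_sq hr, ← aeval_UP]
  exact aeval_mem_V0 _ _

/-- the tower of fields -/
noncomputable def VV (r : ℝ) (hr : Good r) : ℕ → {K : Subfield ℝ // V0 r hr.tr ≤ K}
  | 0 => ⟨V0 r hr.tr, le_refl _⟩
  | m + 1 => ⟨adj (VV r hr m).1 (ww r m) ((VV r hr m).2 (ww_sq_mem hr m)),
      (VV r hr m).2.trans (le_adj _ _ _)⟩

variable {r : ℝ} (hr : Good r)

theorem VV_le_succ (m : ℕ) : (VV r hr m).1 ≤ (VV r hr (m + 1)).1 :=
  le_adj _ _ ((VV r hr m).2 (ww_sq_mem hr m))

theorem VV_mono {m n : ℕ} (h : m ≤ n) : (VV r hr m).1 ≤ (VV r hr n).1 :=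
  monotone_nat_of_le_succ (f := fun m => (VV r hr m).1) (VV_le_succ hr) h

theorem mem_VV_succ {m : ℕ} {x : ℝ} : x ∈ (VV r hr (m + 1)).1 ↔
    ∃ a ∈ (VV r hr m).1, ∃ b ∈ (VV r hr m).1, x = a + b * ww r m := Iff.rfl

include hr in
/-- products of distinct square roots are not in `ℚ(r)` -/
theorem prod_not_mem (T : Finset ℕ) (hT : ∀ k ∈ T, st k ≠ 0) (hne : T.Nonempty) :
    ∏ k ∈ T, ww r k ∉ V0 r hr.tr := by
  classical
  rintro ⟨p, q, hq, h⟩
  have hq' : aeval r q ≠ 0 := fun h => hr.tr ⟨q, hq, h⟩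
  obtain ⟨k0, hk0⟩ := hne
  -- the polynomial identity
  have h1 : q ^ 2 * ∏ k ∈ T, UP k = p ^ 2 := by
    apply transcendental_iff_injective.1 hr.tr
    rw [map_mul, map_pow, map_pow, map_prod]
    have h2 : ∏ k ∈ T, (aeval r) (UP k) = (∏ k ∈ T, ww r k) ^ 2 := by
      rw [← Finset.prod_pow]
      exact Finset.prod_congr rfl fun k _ => by rw [aeval_UP, ww_sq hr]
    rw [h2, h]
    field_simp
  obtain ⟨x, hx, hs⟩ := exists_sign fun n =>
    if n = k0.unpair.1 then decide (st k0 = 2) else decide (SA n)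
  have hqx : aeval x q ≠ 0 := fun h => hx ⟨q, hq, h⟩
  have h3 : aeval x q ^ 2 * ∏ k ∈ T, uu x k = aeval x p ^ 2 := by
    have := congrArg (aeval x) h1
    rw [map_mul, map_pow, map_pow, map_prod] at this
    rw [← this]
    congr 1
    exact Finset.prod_congr rfl fun k _ => (aeval_UP x k).symm
  have h4 : uu x k0 < 0 := by
    have h5 := hs k0.unpair.1
    simp only [if_true, decide_eq_true_eq] at h5
    have h6 := yy_ne_zero hx (2 * k0.unpair.1)
    unfold uu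
    rcases st_cases k0 with h | h | h
    · exact absurd h (hT k0 hk0)
    · rw [if_pos h]
      rw [h] at h5
      exact lt_of_le_of_ne (not_lt.1 fun h7 => absurd (h5.1 h7) (by decide)) h6
    · rw [if_neg (by omega), if_pos h]
      have := h5.2 h
      linarith
  have h5 : 0 < ∏ k ∈ T.erase k0, uu x k := by
    refine Finset.prod_pos fun k hk => ?_
    obtain ⟨hk1, hk2⟩ := Finset.mem_erase.1 hk
    have hn : k.unpair.1 ≠ k0.unpair.1 := fun h =>
      hk1 (st_unique (hT k hk2) (hT k0 hk0) h)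
    have h5 := hs k.unpair.1
    simp only [if_neg hn, decide_eq_true_eq] at h5
    have h6 := yy_ne_zero hx (2 * k.unpair.1)
    unfold uu
    rcases st_cases k with h | h | h
    · exact absurd h (hT k hk2)
    · rw [if_pos h]
      exact h5.2 (SA_of_st h)
    · rw [if_neg (by omega), if_pos h]
      have : ¬ 0 < yy (2 * k.unpair.1) x := fun h7 => not_SA_of_SB (SB_of_st h) (h5.1 h7)
      have := lt_of_le_of_ne (not_lt.1 this) h6
      linarith
  rw [← Finset.mul_prod_erase T _ hk0] at h3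
  have h6 : 0 < aeval x q ^ 2 := by positivity
  have h7 : 0 ≤ aeval x p ^ 2 := by positivity
  have h8 : uu x k0 * ∏ k ∈ T.erase k0, uu x k < 0 := mul_neg_of_neg_of_pos h4 h5
  have h9 : aeval x q ^ 2 * (uu x k0 * ∏ k ∈ T.erase k0, uu x k) < 0 :=
    mul_neg_of_pos_of_neg h6 h8
  linarith

/-- Kummer property -/
def KP (m : ℕ) : Prop := ∀ z ∈ (VV r hr m).1, z ^ 2 ∈ V0 r hr.tr →
  ∃ c ∈ V0 r hr.tr, ∃ T : Finset ℕ, (∀ k ∈ T, st k ≠ 0 ∧ k < m) ∧ z = c * ∏ k ∈ T, ww r k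

theorem not_mem_of_KP {m : ℕ} (h : KP hr m) (hm : st m ≠ 0) : ww r m ∉ (VV r hr m).1 := by
  classical
  intro hw
  obtain ⟨c, hc, T, hT, he⟩ := h _ hw (ww_sq_mem hr m)
  have hmT : m ∉ T := fun h => absurd (hT m h).2 (lt_irrefl _)
  refine prod_not_mem hr (insert m T) ?_ (Finset.insert_nonempty _ _) ?_
  · intro k hk
    rcases Finset.mem_insert.1 hk with rfl | hk
    · exact hm
    · exact (hT k hk).1
  · rw [Finset.prod_insert hmT, he]
    have : (c * ∏ k ∈ T, ww r k) * ∏ k ∈ T, ww r k = c * ∏ k ∈ T, ww r k ^ 2 := by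
      rw [Finset.prod_pow]; ring
    rw [this]
    exact (V0 r hr.tr).mul_mem hc ((V0 r hr.tr).prod_mem fun k _ => ww_sq_mem hr k)

theorem kp (m : ℕ) : KP hr m := by
  classical
  induction m with
  | zero =>
    intro z hz _
    exact ⟨z, hz, ∅, by simp, by simp⟩
  | succ m ih =>
    intro z hz hz2
    obtain ⟨a, ha, b, hb, rfl⟩ := hz
    by_cases hm : st m = 0
    · rw [ww_of_st_zero hm, mul_one] at hz2 ⊢
      obtain ⟨c, hc, T, hT, he⟩ := ih _ ((VV r hr m).1.add_mem ha hb) hz2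
      exact ⟨c, hc, T, fun k hk => ⟨(hT k hk).1, by have := (hT k hk).2; omega⟩, he⟩
    · have hw := not_mem_of_KP hr ih hm
      have h1 : a * b = 0 := by
        by_contra hab
        apply hw
        have h2 : 2 * (a * b) * ww r m ∈ (VV r hr m).1 := by
          have : 2 * (a * b) * ww r m = (a + b * ww r m) ^ 2 - (a ^ 2 + b ^ 2 * ww r m ^ 2) := by ring
          rw [this]
          refine (VV r hr m).1.sub_mem ((VV r hr m).2 hz2) ((VV r hr m).1.add_mem
            ((VV r hr m).1.pow_mem ha 2) ((VV r hr m).1.mul_mem ((VV r hr m).1.pow_mem hb 2)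
              ((VV r hr m).2 (ww_sq_mem hr m))))
        have h3 : 2 * (a * b) ∈ (VV r hr m).1 := by
          rw [two_mul]
          exact (VV r hr m).1.add_mem ((VV r hr m).1.mul_mem ha hb) ((VV r hr m).1.mul_mem ha hb)
        have h4 : ww r m = (2 * (a * b))⁻¹ * (2 * (a * b) * ww r m) := by
          rw [← mul_assoc, inv_mul_cancel₀ (mul_ne_zero two_ne_zero hab), one_mul]
        rw [h4]
        exact (VV r hr m).1.mul_mem ((VV r hr m).1.inv_mem h3) h2
      rcases mul_eq_zero.1 h1 with rfl | rfl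
      · rw [zero_add] at hz2 ⊢
        have hu : ww r m ^ 2 ≠ 0 := by rw [ww_sq hr]; exact (uu_pos hr m).ne'
        have h5 : b ^ 2 ∈ V0 r hr.tr := by
          have : b ^ 2 = (b * ww r m) ^ 2 * (ww r m ^ 2)⁻¹ := by
            rw [mul_pow, mul_assoc, mul_inv_cancel₀ hu, mul_one]
          rw [this]
          exact (V0 r hr.tr).mul_mem hz2 ((V0 r hr.tr).inv_mem (ww_sq_mem hr m))
        obtain ⟨c, hc, T, hT, he⟩ := ih b hb h5
        have hmT : m ∉ T := fun h => absurd (hT m h).2 (lt_irrefl _)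
        refine ⟨c, hc, insert m T, ?_, ?_⟩
        · intro k hk
          rcases Finset.mem_insert.1 hk with rfl | hk
          · exact ⟨hm, by omega⟩
          · exact ⟨(hT k hk).1, by have := (hT k hk).2; omega⟩
        · rw [Finset.prod_insert hmT, he]
          ring
      · rw [zero_mul, add_zero] at hz2 ⊢
        obtain ⟨c, hc, T, hT, he⟩ := ih _ ha hz2
        exact ⟨c, hc, T, fun k hk => ⟨(hT k hk).1, by have := (hT k hk).2; omega⟩, he⟩

/-- the square roots are independent -/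
theorem ww_not_mem {m : ℕ} (hm : st m ≠ 0) : ww r m ∉ (VV r hr m).1 :=
  not_mem_of_KP hr (kp hr m) hm

end Pool.Agent.Y548.OF
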