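import Pool.Agent.Helper227.RD.Jump

set_option autoImplicit false

/-! The low basis theorem. -/

namespace Pool.Agent.Y548.OF

open Encodable Pool.Agent.Helper227
open Nat.Partrec (Code)

/-- all Boolean strings of length `n` -/
def strs (n : ℕ) : List (List Bool) :=
  Nat.rec [[]] (fun _ L => L.map (fun σ => σ ++ [false]) ++ L.map (fun σ => σ ++ [true])) n

theorem strs_prim : Primrec strs := by
  refine Primrec.nat_rec₁ (α := List (List Bool)) [[]] (f := fun _ L =>
    L.map (fun σ => σ ++ [false]) ++ L.map (fun σ => σ ++ [true])) ?_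
  refine Primrec.list_append.comp ?_ ?_
  · exact Primrec.list_map (f := fun x : ℕ × List (List Bool) => x.2)
      (g := fun _ σ => σ ++ [false]) Primrec.snd
      (Primrec.list_append.comp Primrec.snd (Primrec.const [false]))
  · exact Primrec.list_map (f := fun x : ℕ × List (List Bool) => x.2)
      (g := fun _ σ => σ ++ [true]) Primrec.snd
      (Primrec.list_append.comp Primrec.snd (Primrec.const [true]))

theorem strs_succ (n : ℕ) : strs (n + 1) =
    (strs n).map (fun σ => σ ++ [false]) ++ (strs n).map (fun σ => σ ++ [true]) := rfl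

theorem pre_mem_strs (X : ℕ → Bool) (n : ℕ) : pre X n ∈ strs n := by
  induction n with
  | zero => simp [strs, pre]
  | succ n ih =>
    rw [strs_succ, pre_succ]
    cases h : X n
    · exact List.mem_append.2 (Or.inl (List.mem_map.2 ⟨_, ih, rfl⟩))
    · exact List.mem_append.2 (Or.inr (List.mem_map.2 ⟨_, ih, rfl⟩))

theorem length_of_mem_strs {n : ℕ} : ∀ {σ : List Bool}, σ ∈ strs n → σ.length = n := by
  induction n with
  | zero => intro σ h; simp [strs] at h; simp [h]
  | succ n ih =>
    intro σ h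
    rw [strs_succ, List.mem_append, List.mem_map, List.mem_map] at h
    rcases h with ⟨τ, h1, rfl⟩ | ⟨τ, h1, rfl⟩
    · simp [ih h1]
    · simp [ih h1]

theorem exists_of_mem_strs {n : ℕ} {σ : List Bool} (h : σ ∈ strs n) : ∃ X : ℕ → Bool, pre X n = σ := by
  have h1 := length_of_mem_strs h
  refine ⟨fun i => σ.getD i false, ?_⟩
  refine List.ext_getElem (by simp [h1]) fun i h5 h6 => ?_
  rw [getElem_pre]
  simp [h6]

/-- the string `τ` witnesses that `e` is in the jump -/
def UU (x : ℕ × List Bool) : Prop :=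
  ((Denumerable.ofNat Code x.1).eval (encode (x.2, x.1))).Dom

theorem s1_UU : S1 UU := by
  refine S1.comp (f := fun x : ℕ × List Bool => (Denumerable.ofNat Code x.1, encode (x.2, x.1)))
    s1_eval ?_
  exact ((Primrec.ofNat Code).comp Primrec.fst).pair
    (Primrec.encode.comp (Primrec.snd.pair Primrec.fst))

theorem jump_iff_UU (X : ℕ → Bool) (e : ℕ) : jump X e = true ↔ ∃ n, UU (e, pre X n) :=
  jump_eq_true

section

variable (W : List Bool → Prop)

/-- badness of a string for the requirement list `l` -/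
def Bad1 (l : List ℕ) (τ : List Bool) : Prop := W τ ∨ ∃ e ∈ l, UU (e, τ)

def Bad (l : List ℕ) (σ : List Bool) : Prop := ∃ k, k ≤ σ.length ∧ Bad1 W l (σ.take k)

def Emp (l : List ℕ) : Prop := ∃ n, ∀ σ ∈ strs n, Bad W l σ

theorem s1_Emp (hW : S1 W) : S1 (Emp W) := by
  have h0 : S1 fun x : List ℕ × List Bool => Bad1 W x.1 x.2 := by
    refine S1.or (hW.comp Primrec.snd) ?_
    refine S1.ex (p := fun (x : List ℕ × List Bool) (e : ℕ) => e ∈ x.1 ∧ UU (e, x.2)) (S1.and ?_ ?_)
    · refine S1.of_prim ?_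
      have : PrimrecPred fun y : (List ℕ × List Bool) × ℕ => ∃ b ∈ y.1.1, b = y.2 :=
        PP.ex_mem (α := (List ℕ × List Bool) × ℕ) (p := fun y b => b = y.2)
          (Primrec.eq.comp Primrec.snd (Primrec.snd.comp Primrec.fst))
          (Primrec.fst.comp Primrec.fst)
      exact this.of_eq (by simp)
    · exact s1_UU.comp (Primrec.snd.pair (Primrec.snd.comp Primrec.fst))
  have h1 : S1 fun x : List ℕ × List Bool => Bad W x.1 x.2 := by
    refine S1.ex (p := fun (x : List ℕ × List Bool) (k : ℕ) =>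
      k ≤ x.2.length ∧ Bad1 W x.1 (x.2.take k)) (S1.and (S1.of_prim ?_) ?_)
    · exact Primrec.nat_le.comp Primrec.snd (Primrec.list_length.comp (Primrec.snd.comp Primrec.fst))
    · have htake : Primrec fun y : (List ℕ × List Bool) × ℕ => y.1.2.take y.2 := by
        have : Primrec fun y : (List ℕ × List Bool) × ℕ =>
            ((List.range (min y.2 y.1.2.length)).map fun i => y.1.2.getD i false) := by
          refine Primrec.list_map (Primrec.list_range.comp (Primrec.nat_min.comp Primrec.snd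
            (Primrec.list_length.comp (Primrec.snd.comp Primrec.fst)))) ?_
          exact (Primrec.list_getD false).comp (Primrec.snd.comp (Primrec.fst.comp Primrec.fst))
            Primrec.snd
        refine this.of_eq fun y => ?_
        refine List.ext_getElem (by simp) fun i h5 h6 => ?_
        simp at h5
        simp [h5]
      exact h0.comp (f := fun y : (List ℕ × List Bool) × ℕ => (y.1.1, y.1.2.take y.2))
        ((Primrec.fst.comp Primrec.fst).pair htake)
  refine S1.ex (p := fun (l : List ℕ) (n : ℕ) => ∀ σ ∈ strs n, Bad W l σ) ?_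
  exact S1.all_mem (α := List ℕ × ℕ) (p := fun x σ => Bad W x.1 σ) (f := fun x => strs x.2)
    (h1.comp ((Primrec.fst.comp Primrec.fst).pair Primrec.snd)) (strs_prim.comp Primrec.snd)

/-- the class of the requirement list -/
def PC (l : List ℕ) : Set (ℕ → Bool) := {X | ∀ n, ¬ Bad1 W l (pre X n)}

theorem bad_pre_iff (l : List ℕ) (X : ℕ → Bool) (n : ℕ) :
    Bad W l (pre X n) ↔ ∃ k ≤ n, Bad1 W l (pre X k) := by
  constructor
  · rintro ⟨k, hk, h⟩
    rw [length_pre] at hk
    rw [take_pre _ _ _ hk] at h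
    exact ⟨k, hk, h⟩
  · rintro ⟨k, hk, h⟩
    refine ⟨k, by simpa using hk, ?_⟩
    rwa [take_pre _ _ _ hk]

theorem isClopen_pre (Q : List Bool → Prop) (n : ℕ) : IsClopen {X : ℕ → Bool | Q (pre X n)} := by
  have h1 : Continuous fun X : ℕ → Bool => fun i : Fin n => X i :=
    continuous_pi fun i => continuous_apply _
  have h2 : {X : ℕ → Bool | Q (pre X n)} =
      (fun X : ℕ → Bool => fun i : Fin n => X i) ⁻¹' {f : Fin n → Bool | Q (List.ofFn f)} := by
    ext X
    simp only [Set.mem_ofPred_eq, Set.mem_preimage]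
    have : pre X n = List.ofFn fun i : Fin n => X i := by
      refine List.ext_getElem (by simp) fun i h5 h6 => ?_
      rw [getElem_pre]
      simp
    rw [this]
  rw [h2]
  exact (isClopen_discrete _).preimage h1

theorem isClosed_PC (l : List ℕ) : IsClosed (PC W l) := by
  have : PC W l = ⋂ n, {X : ℕ → Bool | ¬ Bad1 W l (pre X n)} := by
    ext X; simp [PC]
  rw [this]
  exact isClosed_iInter fun n => (isClopen_pre (fun τ => ¬ Bad1 W l τ) n).isClosed

theorem PC_nonempty_iff (l : List ℕ) : (PC W l).Nonempty ↔ ¬ Emp W l := by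
  constructor
  · rintro ⟨X, hX⟩ ⟨n, hn⟩
    obtain ⟨k, _, hk⟩ := (bad_pre_iff W l X n).1 (hn _ (pre_mem_strs X n))
    exact hX k hk
  · intro h
    have h1 : ∀ n, ∃ X : ℕ → Bool, ¬ Bad W l (pre X n) := by
      intro n
      by_contra hc
      push Not at hc
      refine h ⟨n, fun σ hσ => ?_⟩
      obtain ⟨X, rfl⟩ := exists_of_mem_strs hσ
      exact hc X
    have h2 := IsCompact.nonempty_iInter_of_sequence_nonempty_isCompact_isClosed
      (fun n => {X : ℕ → Bool | ¬ Bad W l (pre X n)}) ?_ ?_ ?_ ?_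
    · obtain ⟨X, hX⟩ := h2
      refine ⟨X, fun n hn => ?_⟩
      have := Set.mem_iInter.1 hX n
      exact this ((bad_pre_iff W l X n).2 ⟨n, le_refl _, hn⟩)
    · intro n X hX hb
      obtain ⟨k, hk, h3⟩ := (bad_pre_iff W l X n).1 hb
      exact hX ((bad_pre_iff W l X (n + 1)).2 ⟨k, by omega, h3⟩)
    · exact h1
    · exact (isClopen_pre (fun τ => ¬ Bad W l τ) 0).isClosed.isCompact
    · exact fun n => (isClopen_pre (fun τ => ¬ Bad W l τ) n).isClosed

open Classical in
/-- the greedy list of requirements -/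
noncomputable def GrL : ℕ → List ℕ
  | 0 => []
  | e + 1 => if Emp W (e :: GrL e) then GrL e else e :: GrL e

theorem PC_GrL_nonempty (hne : (PC W []).Nonempty) (e : ℕ) : (PC W (GrL W e)).Nonempty := by
  induction e with
  | zero => exact hne
  | succ e ih =>
    rw [GrL]
    split_ifs with h
    · exact ih
    · exact (PC_nonempty_iff W _).2 h

theorem PC_cons_subset (l : List ℕ) (e : ℕ) : PC W (e :: l) ⊆ PC W l := by
  intro X hX n hb
  refine hX n (hb.imp_right ?_)
  rintro ⟨e', h1, h2⟩
  exact ⟨e', List.mem_cons_of_mem _ h1, h2⟩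

theorem exists_generic (hne : (PC W []).Nonempty) : ∃ X, ∀ e, X ∈ PC W (GrL W e) := by
  have h2 := IsCompact.nonempty_iInter_of_sequence_nonempty_isCompact_isClosed
      (fun e => PC W (GrL W e)) ?_ ?_ ?_ ?_
  · obtain ⟨X, hX⟩ := h2
    exact ⟨X, fun e => Set.mem_iInter.1 hX e⟩
  · intro e
    simp only [GrL]
    split_ifs with h
    · exact subset_rfl
    · exact PC_cons_subset W _ _
  · exact PC_GrL_nonempty W hne
  · exact (isClosed_PC W _).isCompact
  · exact fun e => isClosed_PC W _

theorem jump_iff_emp {X : ℕ → Bool} (hX : ∀ e, X ∈ PC W (GrL W e)) (e : ℕ) :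
    jump X e = true ↔ Emp W (e :: GrL W e) := by
  rw [jump_iff_UU]
  constructor
  · rintro ⟨n, hn⟩
    by_contra hc
    have h1 := hX (e + 1)
    rw [GrL, if_neg hc] at h1
    exact h1 n (Or.inr ⟨e, by simp, hn⟩)
  · rintro ⟨n, hn⟩
    obtain ⟨k, _, hk⟩ := (bad_pre_iff W _ X n).1 (hn _ (pre_mem_strs X n))
    rcases hk with hk | ⟨e', he', hk⟩
    · exact absurd (Or.inl hk) (hX e k)
    · rcases List.mem_cons.1 he' with rfl | he'
      · exact ⟨k, hk⟩
      · exact absurd (Or.inr ⟨e', he', hk⟩) (hX e k)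

/-- the graph of the greedy list -/
theorem si_GL (hW : S1 W) :
    SI (jump fun _ => false) fun x : ℕ × List ℕ => GrL W x.1 = x.2 := by
  obtain ⟨h1, h2⟩ := (SI.of_s1 (B := fun _ => false) (s1_Emp W hW)).decide_jump
  have hg : Primrec fun y : (ℕ × List ℕ) × List (List ℕ) => y.2.getD 0 [] :=
    (Primrec.list_getD []).comp Primrec.snd (Primrec.const 0)
  have h3 : SI (jump fun _ => false) fun x : ℕ × List ℕ => ∃ H : List (List ℕ),
      (H.getD 0 [] = [] ∧ H.getD x.1 [] = x.2) ∧
      ∀ i < x.1, ((Emp W (i :: H.getD i []) ∧ H.getD (i + 1) [] = H.getD i []) ∨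
        (¬ Emp W (i :: H.getD i []) ∧ H.getD (i + 1) [] = i :: H.getD i [])) := by
    refine SI.ex (p := fun (x : ℕ × List ℕ) (H : List (List ℕ)) =>
      (H.getD 0 [] = [] ∧ H.getD x.1 [] = x.2) ∧
      ∀ i < x.1, ((Emp W (i :: H.getD i []) ∧ H.getD (i + 1) [] = H.getD i []) ∨
        (¬ Emp W (i :: H.getD i []) ∧ H.getD (i + 1) [] = i :: H.getD i []))) (SI.and ?_ ?_)
    · refine SI.of_prim (PrimrecPred.and ?_ ?_)
      · exact Primrec.eq.comp hg (Primrec.const [])
      · exact Primrec.eq.comp ((Primrec.list_getD []).comp Primrec.snd (Primrec.fst.comp Primrec.fst))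
          (Primrec.snd.comp Primrec.fst)
    · have hi : Primrec fun z : ((ℕ × List ℕ) × List (List ℕ)) × ℕ => z.1.2.getD z.2 [] :=
        (Primrec.list_getD []).comp (Primrec.snd.comp Primrec.fst) Primrec.snd
      have hi1 : Primrec fun z : ((ℕ × List ℕ) × List (List ℕ)) × ℕ => z.1.2.getD (z.2 + 1) [] :=
        (Primrec.list_getD []).comp (Primrec.snd.comp Primrec.fst) (Primrec.succ.comp Primrec.snd)
      have hc : Primrec fun z : ((ℕ × List ℕ) × List (List ℕ)) × ℕ => z.2 :: z.1.2.getD z.2 [] :=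
        Primrec.list_cons.comp Primrec.snd hi
      refine SI.all_lt (α := (ℕ × List ℕ) × List (List ℕ)) (p := fun y i =>
        ((Emp W (i :: y.2.getD i []) ∧ y.2.getD (i + 1) [] = y.2.getD i []) ∨
        (¬ Emp W (i :: y.2.getD i []) ∧ y.2.getD (i + 1) [] = i :: y.2.getD i [])))
        (f := fun y => y.1.1) (SI.or (SI.and ?_ (SI.of_prim ?_)) (SI.and ?_ (SI.of_prim ?_)))
        (Primrec.fst.comp Primrec.fst)
      · exact h1.comp hc
      · exact Primrec.eq.comp hi1 hi
      · exact h2.comp hc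
      · exact Primrec.eq.comp hi1 hc
  refine h3.of_eq fun x => ?_
  constructor
  · rintro ⟨H, ⟨h4, h5⟩, h6⟩
    have h7 : ∀ i, i ≤ x.1 → H.getD i [] = GrL W i := by
      intro i
      induction i with
      | zero => intro _; exact h4
      | succ i ih =>
        intro hi
        have h8 := ih (by omega)
        rw [GrL]
        rcases h6 i (by omega) with ⟨h9, h10⟩ | ⟨h9, h10⟩
        · rw [h8] at h9 h10
          rw [if_pos h9, h10]
        · rw [h8] at h9 h10
          rw [if_neg h9, h10]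
    rw [← h5, h7 _ (le_refl _)]
  · intro h
    have hget : ∀ i ≤ x.1, ((List.range (x.1 + 1)).map (GrL W)).getD i [] = GrL W i := by
      intro i hi
      simp [List.getD, List.getElem?_range (show i < x.1 + 1 by omega)]
    refine ⟨(List.range (x.1 + 1)).map (GrL W), ⟨?_, ?_⟩, fun i hi => ?_⟩
    · rw [hget 0 (by omega)]; rfl
    · rw [hget _ (le_refl _)]; exact h
    · rw [hget i (by omega), hget (i + 1) (by omega)]
      by_cases h9 : Emp W (i :: GrL W i)
      · left; exact ⟨h9, by rw [GrL, if_pos h9]⟩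
      · right; exact ⟨h9, by rw [GrL, if_neg h9]⟩

end

/-- The low basis theorem of Jockusch and Soare. -/
theorem lowBasis {W : List Bool → Prop} (hW : S1 W) (hne : ∃ X : ℕ → Bool, ∀ n, ¬ W (pre X n)) :
    ∃ X : ℕ → Bool, (∀ n, ¬ W (pre X n)) ∧ TLe (jump X) (jump fun _ => false) := by
  have h0 : (PC W []).Nonempty := by
    obtain ⟨X, hX⟩ := hne
    refine ⟨X, fun n hb => ?_⟩
    rcases hb with hb | ⟨e, he, _⟩
    · exact hX n hb
    · simp at he
  obtain ⟨X, hX⟩ := exists_generic W h0
  refine ⟨X, fun n hn => hX 0 n (Or.inl hn), ?_⟩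
  rw [tLe_iff_SI]
  obtain ⟨h1, h2⟩ := (SI.of_s1 (B := fun _ => false) (s1_Emp W hW)).decide_jump
  have h3 : SI (jump fun _ => false) fun x : ℕ × Bool => ∃ l : List ℕ, GrL W x.1 = l ∧
      ((Emp W (x.1 :: l) ∧ x.2 = true) ∨ (¬ Emp W (x.1 :: l) ∧ x.2 = false)) := by
    refine SI.ex (p := fun (x : ℕ × Bool) (l : List ℕ) => GrL W x.1 = l ∧
      ((Emp W (x.1 :: l) ∧ x.2 = true) ∨ (¬ Emp W (x.1 :: l) ∧ x.2 = false))) (SI.and ?_ (SI.or
        (SI.and ?_ (SI.of_prim ?_)) (SI.and ?_ (SI.of_prim ?_))))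
    · exact (si_GL W hW).comp (f := fun y : (ℕ × Bool) × List ℕ => (y.1.1, y.2))
        ((Primrec.fst.comp Primrec.fst).pair Primrec.snd)
    · exact h1.comp (f := fun y : (ℕ × Bool) × List ℕ => y.1.1 :: y.2)
        (Primrec.list_cons.comp (Primrec.fst.comp Primrec.fst) Primrec.snd)
    · exact Primrec.eq.comp (Primrec.snd.comp Primrec.fst) (Primrec.const true)
    · exact h2.comp (f := fun y : (ℕ × Bool) × List ℕ => y.1.1 :: y.2)
        (Primrec.list_cons.comp (Primrec.fst.comp Primrec.fst) Primrec.snd)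
    · exact Primrec.eq.comp (Primrec.snd.comp Primrec.fst) (Primrec.const false)
  refine h3.of_eq fun x => ?_
  rcases x with ⟨e, b⟩
  have h4 := jump_iff_emp W hX e
  constructor
  · rintro ⟨l, rfl, ⟨h5, h6⟩ | ⟨h5, h6⟩⟩
    · simp only at h6
      rw [h6]
      exact h4.2 h5
    · simp only at h6
      rw [h6, ← Bool.not_eq_true, h4]
      exact h5
  · intro h5
    simp only at h5
    refine ⟨_, rfl, ?_⟩
    cases b
    · right
      refine ⟨?_, rfl⟩
      rw [← Bool.not_eq_true, h4] at h5
      exact h5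
    · left
      exact ⟨h4.1 h5, rfl⟩

end Pool.Agent.Y548.OF
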