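import Mathlib

set_option autoImplicit false

/-! Independence of the signs of the iterates of `x ↦ x² - 2`. -/

namespace Pool.Agent.Y548.OF

open Polynomial

/-- the iterates of `x ↦ x² - 2` -/
def yy : ℕ → ℝ → ℝ
  | 0, x => x
  | n + 1, x => (yy n x) ^ 2 - 2

/-- the corresponding polynomials -/
noncomputable def YP : ℕ → ℤ[X]
  | 0 => X
  | n + 1 => (YP n) ^ 2 - 2

theorem aeval_YP (n : ℕ) (x : ℝ) : aeval x (YP n) = yy n x := by
  induction n with
  | zero => simp [YP, yy]
  | succ n ih => simp only [YP, yy, map_sub, map_pow, ih, map_ofNat]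

theorem eval_YP_two (n : ℕ) : (YP n).eval 2 = 2 := by
  induction n with
  | zero => simp [YP]
  | succ n ih => simp [YP, ih]

theorem YP_ne_zero (n : ℕ) : YP n ≠ 0 := by
  intro h
  have := eval_YP_two n
  rw [h] at this
  simp at this

theorem yy_ne_zero {x : ℝ} (hx : Transcendental ℤ x) (n : ℕ) : yy n x ≠ 0 := by
  intro h
  rw [← aeval_YP] at h
  exact hx ⟨YP n, YP_ne_zero n, h⟩

theorem yy_succ' (n : ℕ) (x : ℝ) : yy (n + 1) x = yy n (x ^ 2 - 2) := by
  induction n with
  | zero => rfl
  | succ n ih => rw [yy, ih]; rfl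

theorem continuous_yy (n : ℕ) : Continuous (yy n) := by
  induction n with
  | zero => exact continuous_id
  | succ n ih => exact (ih.pow 2).sub continuous_const

theorem yy_two (n : ℕ) : yy n 2 = 2 := by
  induction n with
  | zero => rfl
  | succ n ih => rw [yy, ih]; norm_num

/-- weak sign pattern -/
def WS (s : ℕ → Bool) (n : ℕ) (x : ℝ) : Prop :=
  (s n = true → 0 ≤ yy n x) ∧ (s n = false → yy n x ≤ 0)

theorem exists_fin (N : ℕ) : ∀ s : ℕ → Bool, ∃ x ∈ Set.Icc (-2 : ℝ) 2, ∀ n < N, WS s n x := by
  induction N with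
  | zero => intro s; exact ⟨0, by constructor <;> norm_num, by simp⟩
  | succ N ih =>
    intro s
    obtain ⟨x', ⟨h1, h2⟩, h3⟩ := ih fun n => s (n + 1)
    have h4 : 0 ≤ 2 + x' := by linarith
    have h5 : √(2 + x') ^ 2 = 2 + x' := Real.sq_sqrt h4
    have h6 : √(2 + x') ≤ 2 := by
      rw [Real.sqrt_le_left (by norm_num)]
      linarith
    have h7 := Real.sqrt_nonneg (2 + x')
    have key : ∀ x : ℝ, x ^ 2 - 2 = x' → ∀ n < N, WS s (n + 1) x := by
      intro x hx n hn
      unfold WS
      rw [yy_succ', hx]
      exact h3 n hn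
    cases hs : s 0
    · refine ⟨-√(2 + x'), ⟨by linarith, by linarith⟩, fun n hn => ?_⟩
      rcases n with _ | n
      · exact ⟨fun h => by rw [hs] at h; simp at h, fun _ => by simpa [yy] using h7⟩
      · exact key _ (by rw [neg_sq, h5]; ring) n (by omega)
    · refine ⟨√(2 + x'), ⟨by linarith, by linarith⟩, fun n hn => ?_⟩
      rcases n with _ | n
      · exact ⟨fun _ => by simpa [yy] using h7, fun h => by rw [hs] at h; simp at h⟩
      · exact key _ (by rw [h5]; ring) n (by omega)

theorem isClosed_WS (s : ℕ → Bool) (n : ℕ) : IsClosed {x : ℝ | WS s n x} := by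
  unfold WS
  cases s n
  · simpa using isClosed_le (continuous_yy n) continuous_const
  · simpa using isClosed_le continuous_const (continuous_yy n)

theorem exists_weak (s : ℕ → Bool) : ∃ x : ℝ, ∀ n, WS s n x := by
  have h2 := IsCompact.nonempty_iInter_of_sequence_nonempty_isCompact_isClosed
      (fun N => Set.Icc (-2 : ℝ) 2 ∩ ⋂ n : ℕ, ⋂ _ : n < N, {x : ℝ | WS s n x}) ?_ ?_ ?_ ?_
  · obtain ⟨x, hx⟩ := h2
    refine ⟨x, fun n => ?_⟩
    have h3 := (Set.mem_iInter.1 hx (n + 1)).2
    simp only [Set.mem_iInter] at h3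
    exact h3 n (by omega)
  · intro N x hx
    refine ⟨hx.1, ?_⟩
    have h3 := hx.2
    simp only [Set.mem_iInter] at h3 ⊢
    exact fun n hn => h3 n (by omega)
  · intro N
    obtain ⟨x, hx, h⟩ := exists_fin N s
    refine ⟨x, hx, ?_⟩
    simp only [Set.mem_iInter]
    exact h
  · exact isCompact_Icc.inter_right (isClosed_iInter fun n => isClosed_iInter fun _ => isClosed_WS s n)
  · intro N
    exact isClosed_Icc.inter (isClosed_iInter fun n => isClosed_iInter fun _ => isClosed_WS s n)

theorem yy_eq_two_of {x : ℝ} {n m : ℕ} (h : yy n x = 0) : yy (n + 2 + m) x = 2 := by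
  induction m with
  | zero => simp [yy, h]; norm_num
  | succ m ih => rw [← add_assoc, yy, ih]; norm_num

theorem zero_unique {x : ℝ} {n m : ℕ} (hn : yy n x = 0) (hm : yy m x = 0) : n = m := by
  wlog hle : n ≤ m generalizing n m
  · exact (this hm hn (by omega)).symm
  rcases Nat.eq_or_lt_of_le hle with h | h
  · exact h
  · exfalso
    rcases Nat.eq_or_lt_of_le (Nat.succ_le_of_lt h) with h' | h'
    · rw [← h', Nat.succ_eq_add_one, yy, hn] at hm
      norm_num at hm
    · have h1 := yy_eq_two_of (m := m - (n + 2)) hn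
      rw [show n + 2 + (m - (n + 2)) = m by omega, hm] at h1
      norm_num at h1

open Classical in
theorem exists_trans_weak (s : ℕ → Bool) :
    ∃ x : ℝ, Transcendental ℤ x ∧ ∀ n, WS (fun m => if m % 2 = 0 then s (m / 2) else true) (2 * n) x := by
  by_contra hc
  push Not at hc
  let t : (ℕ → Bool) → ℕ → Bool := fun b m => if m % 2 = 0 then s (m / 2) else b (m / 2)
  choose f hf using fun b : ℕ → Bool => exists_weak (t b)
  have halg : ∀ b, IsAlgebraic ℤ (f b) := by
    intro b
    by_contra hb
    obtain ⟨n, hn⟩ := hc (f b) hb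
    apply hn
    have := hf b (2 * n)
    unfold WS at this ⊢
    simpa [t] using this
  have hcount : (Set.univ : Set (ℕ → Bool)).Countable := by
    have h1 : (⋃ x ∈ {x : ℝ | IsAlgebraic ℤ x}, {b : ℕ → Bool | f b = x}).Countable := by
      refine Set.Countable.biUnion (Algebraic.countable ℤ ℝ) fun x _ => ?_
      let g : ℕ → Bool := fun n => decide (0 < yy (2 * n + 1) x)
      refine (Set.countable_range fun p : ℕ × Bool => Function.update g p.1 p.2).mono ?_
      intro b hb
      have hb : f b = x := hb
      have key : ∀ n, yy (2 * n + 1) x ≠ 0 → b n = g n := by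
        intro n hn
        have h2 := hf b (2 * n + 1)
        rw [hb] at h2
        unfold WS at h2
        have h3 : t b (2 * n + 1) = b n := by
          have h4 : (2 * n + 1) % 2 = 1 := by omega
          have h5 : (2 * n + 1) / 2 = n := by omega
          simp [t, h4, h5]
        rw [h3] at h2
        cases hbn : b n
        · have := h2.2 hbn
          simp [g, this]
        · have h6 := h2.1 hbn
          have h7 : 0 < yy (2 * n + 1) x := lt_of_le_of_ne h6 (Ne.symm hn)
          simp [g, h7]
      by_cases hz : ∃ n, yy (2 * n + 1) x = 0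
      · obtain ⟨n0, hn0⟩ := hz
        refine ⟨(n0, b n0), ?_⟩
        funext n
        by_cases hn : n = n0
        · subst hn; simp
        · simp only [Function.update_of_ne hn]
          refine (key n fun h => hn ?_).symm
          have := zero_unique h hn0
          omega
      · push Not at hz
        refine ⟨(0, b 0), ?_⟩
        funext n
        by_cases hn : n = 0
        · subst hn; simp
        · simp only [Function.update_of_ne hn]
          exact (key n (hz n)).symm
    refine h1.mono ?_
    intro b _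
    simp only [Set.mem_iUnion]
    exact ⟨f b, halg b, rfl⟩
  have : Countable (ℕ → Bool) := Set.countable_univ_iff.1 hcount
  obtain ⟨g, hg⟩ := exists_surjective_nat (ℕ → Bool)
  obtain ⟨n, hn⟩ := hg fun n => !(g n n)
  have := congrFun hn n
  simp at this

/-- Any pattern of signs of the even iterates is realised by a transcendental number. -/
theorem exists_sign (s : ℕ → Bool) :
    ∃ x : ℝ, Transcendental ℤ x ∧ ∀ n, 0 < yy (2 * n) x ↔ s n = true := by
  obtain ⟨x, hx, h⟩ := exists_trans_weak s
  refine ⟨x, hx, fun n => ?_⟩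
  have h1 := h n
  unfold WS at h1
  simp only [Nat.mul_mod_right, if_true, Nat.mul_div_cancel_left _ (show 0 < 2 by norm_num)] at h1
  have h2 := yy_ne_zero hx (2 * n)
  constructor
  · intro h3
    by_contra h4
    rw [Bool.not_eq_true] at h4
    exact absurd (h1.2 h4) (not_le.2 h3)
  · intro h3
    exact lt_of_le_of_ne (h1.1 h3) (Ne.symm h2)

end Pool.Agent.Y548.OF
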