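import Pool.Agent.Helper227.SOne
import Pool.Agent.Y548.OF.Sep

set_option autoImplicit false

/-! Ring terms coded by natural numbers and their equational theory. -/

namespace Pool.Agent.Y548.OF

open Encodable Pool.Agent.Helper227

/-- generators -/
def tg (c j : ℕ) : ℕ := 3 * Nat.pair c j
/-- sums -/
def ta (s t : ℕ) : ℕ := 3 * Nat.pair s t + 1
/-- products -/
def tm (s t : ℕ) : ℕ := 3 * Nat.pair s t + 2

theorem t_cases (t : ℕ) : (∃ c j, t = tg c j) ∨ (∃ s u, t = ta s u ∧ s < t ∧ u < t) ∨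
    (∃ s u, t = tm s u ∧ s < t ∧ u < t) := by
  have h1 := Nat.unpair_left_le (t / 3)
  have h2 := Nat.unpair_right_le (t / 3)
  have h3 : t % 3 = 0 ∨ t % 3 = 1 ∨ t % 3 = 2 := by omega
  rcases h3 with h | h | h
  · left
    refine ⟨(t / 3).unpair.1, (t / 3).unpair.2, ?_⟩
    rw [tg, Nat.pair_unpair]; omega
  · right; left
    refine ⟨(t / 3).unpair.1, (t / 3).unpair.2, ?_, by omega, by omega⟩
    rw [ta, Nat.pair_unpair]; omega
  · right; right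
    refine ⟨(t / 3).unpair.1, (t / 3).unpair.2, ?_, by omega, by omega⟩
    rw [tm, Nat.pair_unpair]; omega

section ev

variable {R : Type*} [CommRing R]

/-- evaluation of terms -/
noncomputable def ev (g : ℕ → ℕ → R) (t : ℕ) : R :=
  if _h0 : t % 3 = 0 then g (t / 3).unpair.1 (t / 3).unpair.2
  else if t % 3 = 1 then ev g (t / 3).unpair.1 + ev g (t / 3).unpair.2
  else ev g (t / 3).unpair.1 * ev g (t / 3).unpair.2
termination_by t
decreasing_by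
  all_goals
    have h1 := Nat.unpair_left_le (t / 3)
    have h2 := Nat.unpair_right_le (t / 3)
    omega

theorem ev_tg (g : ℕ → ℕ → R) (c j : ℕ) : ev g (tg c j) = g c j := by
  rw [ev, dif_pos (by unfold tg; omega)]
  have : tg c j / 3 = Nat.pair c j := by unfold tg; omega
  rw [this, Nat.unpair_pair]

theorem ev_ta (g : ℕ → ℕ → R) (s t : ℕ) : ev g (ta s t) = ev g s + ev g t := by
  rw [ev, dif_neg (by unfold ta; omega), if_pos (by unfold ta; omega)]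
  have : ta s t / 3 = Nat.pair s t := by unfold ta; omega
  rw [this, Nat.unpair_pair]

theorem ev_tm (g : ℕ → ℕ → R) (s t : ℕ) : ev g (tm s t) = ev g s * ev g t := by
  rw [ev, dif_neg (by unfold tm; omega), if_neg (by unfold tm; omega)]
  have : tm s t / 3 = Nat.pair s t := by unfold tm; omega
  rw [this, Nat.unpair_pair]

end ev

/-- the pair of lists coded by `j` gives a nonzero difference -/
def gd (j : ℕ) : Prop :=
  (Denumerable.ofNat (List ℕ) j.unpair.1).length = (Denumerable.ofNat (List ℕ) j.unpair.2).length ∧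
    j.unpair.1 ≠ j.unpair.2

/-- an axiom scheme with a condition, a left side and a right side -/
def sc (cond : ℕ × ℕ × ℕ → Prop) (l r : ℕ × ℕ × ℕ → ℕ) (x : ℕ × ℕ) : Prop :=
  ∃ p, cond p ∧ l p = x.1 ∧ r p = x.2

theorem sc_mk {cond : ℕ × ℕ × ℕ → Prop} {l r : ℕ × ℕ × ℕ → ℕ} (p : ℕ × ℕ × ℕ) (h : cond p) :
    sc cond l r (l p, r p) := ⟨p, h, rfl, rfl⟩

/-- The axioms. Generators: `tg 0 j` the numeral `j`, `tg 1 j` minus one, `tg 2 j` the `j`-th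
iterate, `tg 3 k` the `k`-th square root, `tg 4 j` the polynomial whose list of coefficients is
coded by `j`, `tg 5 j` the inverse of the difference of two such polynomials. -/
def Ax (x : ℕ × ℕ) : Prop :=
  sc (fun _ => True) (fun p => ta (tg 0 0) p.1) (fun p => p.1) x ∨
  sc (fun _ => True) (fun p => ta p.1 p.2.1) (fun p => ta p.2.1 p.1) x ∨
  sc (fun _ => True) (fun p => ta (ta p.1 p.2.1) p.2.2) (fun p => ta p.1 (ta p.2.1 p.2.2)) x ∨
  sc (fun _ => True) (fun p => ta (tm (tg 1 0) p.1) p.1) (fun _ => tg 0 0) x ∨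
  sc (fun _ => True) (fun p => tm (tg 0 1) p.1) (fun p => p.1) x ∨
  sc (fun _ => True) (fun p => tm (tg 0 0) p.1) (fun _ => tg 0 0) x ∨
  sc (fun _ => True) (fun p => tm p.1 p.2.1) (fun p => tm p.2.1 p.1) x ∨
  sc (fun _ => True) (fun p => tm (tm p.1 p.2.1) p.2.2) (fun p => tm p.1 (tm p.2.1 p.2.2)) x ∨
  sc (fun _ => True) (fun p => tm p.1 (ta p.2.1 p.2.2))
    (fun p => ta (tm p.1 p.2.1) (tm p.1 p.2.2)) x ∨
  sc (fun _ => True) (fun p => tg 0 (p.1 + 1)) (fun p => ta (tg 0 p.1) (tg 0 1)) x ∨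
  sc (fun _ => True) (fun p => tg 1 p.1) (fun _ => tg 1 0) x ∨
  sc (fun _ => True) (fun p => tm (tg 2 p.1) (tg 2 p.1)) (fun p => ta (tg 2 (p.1 + 1)) (tg 0 2)) x ∨
  sc (fun p => st p.1 = 0) (fun p => tg 3 p.1) (fun _ => tg 0 1) x ∨
  sc (fun p => st p.1 = 1) (fun p => tm (tg 3 p.1) (tg 3 p.1))
    (fun p => tg 2 (2 * p.1.unpair.1)) x ∨
  sc (fun p => st p.1 = 2) (fun p => tm (tg 3 p.1) (tg 3 p.1))
    (fun p => tm (tg 1 0) (tg 2 (2 * p.1.unpair.1))) x ∨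
  sc (fun _ => True) (fun _ => tg 4 (encode ([] : List ℕ))) (fun _ => tg 0 0) x ∨
  sc (fun _ => True) (fun p => tg 4 (encode (p.1 :: Denumerable.ofNat (List ℕ) p.2.1)))
    (fun p => ta (tg 0 p.1) (tm (tg 2 0) (tg 4 p.2.1))) x ∨
  sc (fun p => gd p.1) (fun p => tm (tg 5 p.1)
    (ta (tg 4 p.1.unpair.1) (tm (tg 1 0) (tg 4 p.1.unpair.2)))) (fun _ => tg 0 1) x ∨
  sc (fun p => ¬ gd p.1) (fun p => tg 5 p.1) (fun _ => tg 0 0) x ∨
  sc (fun _ => True) (fun p => tg (6 + p.1) p.2.1) (fun _ => tg 0 0) x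

/-- provable equality -/
inductive Eqv : ℕ → ℕ → Prop
  | refl (t : ℕ) : Eqv t t
  | symm {s t : ℕ} : Eqv s t → Eqv t s
  | trans {s t u : ℕ} : Eqv s t → Eqv t u → Eqv s u
  | cta {a b c d : ℕ} : Eqv a c → Eqv b d → Eqv (ta a b) (ta c d)
  | ctm {a b c d : ℕ} : Eqv a c → Eqv b d → Eqv (tm a b) (tm c d)
  | ax {s t : ℕ} : Ax (s, t) → Eqv s t

section prim

variable {α : Type*} [Primcodable α]

theorem tg_prim : Primrec₂ tg :=
  Primrec.nat_mul.comp (Primrec.const 3) Primrec₂.natPair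

theorem ta_prim : Primrec₂ ta :=
  Primrec.succ.comp (Primrec.nat_mul.comp (Primrec.const 3) Primrec₂.natPair)

theorem tm_prim : Primrec₂ tm :=
  Primrec.succ.comp (Primrec.succ.comp (Primrec.nat_mul.comp (Primrec.const 3) Primrec₂.natPair))

theorem ptg {f g : α → ℕ} (hf : Primrec f) (hg : Primrec g) : Primrec fun a => tg (f a) (g a) :=
  tg_prim.comp hf hg

theorem pta {f g : α → ℕ} (hf : Primrec f) (hg : Primrec g) : Primrec fun a => ta (f a) (g a) :=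
  ta_prim.comp hf hg

theorem ptm {f g : α → ℕ} (hf : Primrec f) (hg : Primrec g) : Primrec fun a => tm (f a) (g a) :=
  tm_prim.comp hf hg

theorem gd_prim : PrimrecPred gd := by
  have h1 : Primrec fun j : ℕ => Denumerable.ofNat (List ℕ) j.unpair.1 :=
    (Primrec.ofNat (List ℕ)).comp (Primrec.fst.comp Primrec.unpair)
  have h2 : Primrec fun j : ℕ => Denumerable.ofNat (List ℕ) j.unpair.2 :=
    (Primrec.ofNat (List ℕ)).comp (Primrec.snd.comp Primrec.unpair)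
  refine PrimrecPred.and ?_ (PrimrecPred.not ?_)
  · exact Primrec.eq.comp (Primrec.list_length.comp h1) (Primrec.list_length.comp h2)
  · exact Primrec.eq.comp (Primrec.fst.comp Primrec.unpair) (Primrec.snd.comp Primrec.unpair)

theorem s1_sc {cond : ℕ × ℕ × ℕ → Prop} {l r : ℕ × ℕ × ℕ → ℕ} (hc : PrimrecPred cond)
    (hl : Primrec l) (hr : Primrec r) : S1 (sc cond l r) := by
  refine S1.ex (p := fun (x : ℕ × ℕ) (p : ℕ × ℕ × ℕ) => cond p ∧ l p = x.1 ∧ r p = x.2)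
    (S1.of_prim (PrimrecPred.and (hc.comp Primrec.snd) (PrimrecPred.and ?_ ?_)))
  · exact Primrec.eq.comp (hl.comp Primrec.snd) (Primrec.fst.comp Primrec.fst)
  · exact Primrec.eq.comp (hr.comp Primrec.snd) (Primrec.snd.comp Primrec.fst)

theorem s1_Ax : S1 Ax := by
  have T : PrimrecPred fun _ : ℕ × ℕ × ℕ => True := PP.const True
  have a1 : Primrec fun p : ℕ × ℕ × ℕ => p.1 := Primrec.fst
  have a2 : Primrec fun p : ℕ × ℕ × ℕ => p.2.1 := Primrec.fst.comp Primrec.snd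
  have a3 : Primrec fun p : ℕ × ℕ × ℕ => p.2.2 := Primrec.snd.comp Primrec.snd
  have k : ∀ c : ℕ, Primrec fun _ : ℕ × ℕ × ℕ => c := fun c => Primrec.const c
  have k1 : Primrec fun p : ℕ × ℕ × ℕ => p.1.unpair.1 := Primrec.fst.comp (Primrec.unpair.comp a1)
  have k2 : Primrec fun p : ℕ × ℕ × ℕ => p.1.unpair.2 := Primrec.snd.comp (Primrec.unpair.comp a1)
  have s1' : Primrec fun p : ℕ × ℕ × ℕ => p.1 + 1 := Primrec.succ.comp a1
  have d1 : Primrec fun p : ℕ × ℕ × ℕ => 2 * p.1.unpair.1 := Primrec.nat_mul.comp (k 2) k1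
  have six : Primrec fun p : ℕ × ℕ × ℕ => 6 + p.1 := Primrec.nat_add.comp (k 6) a1
  have hst : ∀ c : ℕ, PrimrecPred fun p : ℕ × ℕ × ℕ => st p.1 = c := fun c =>
    Primrec.eq.comp (st_prim.comp a1) (k c)
  have hgd : PrimrecPred fun p : ℕ × ℕ × ℕ => gd p.1 := gd_prim.comp a1
  have hcons : Primrec fun p : ℕ × ℕ × ℕ => encode (p.1 :: Denumerable.ofNat (List ℕ) p.2.1) :=
    Primrec.encode.comp (Primrec.list_cons.comp a1 ((Primrec.ofNat (List ℕ)).comp a2))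
  unfold Ax
  refine S1.or (s1_sc T (pta (ptg (k 0) (k 0)) a1) a1) ?_
  refine S1.or (s1_sc T (pta a1 a2) (pta a2 a1)) ?_
  refine S1.or (s1_sc T (pta (pta a1 a2) a3) (pta a1 (pta a2 a3))) ?_
  refine S1.or (s1_sc T (pta (ptm (ptg (k 1) (k 0)) a1) a1) (ptg (k 0) (k 0))) ?_
  refine S1.or (s1_sc T (ptm (ptg (k 0) (k 1)) a1) a1) ?_
  refine S1.or (s1_sc T (ptm (ptg (k 0) (k 0)) a1) (ptg (k 0) (k 0))) ?_
  refine S1.or (s1_sc T (ptm a1 a2) (ptm a2 a1)) ?_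
  refine S1.or (s1_sc T (ptm (ptm a1 a2) a3) (ptm a1 (ptm a2 a3))) ?_
  refine S1.or (s1_sc T (ptm a1 (pta a2 a3)) (pta (ptm a1 a2) (ptm a1 a3))) ?_
  refine S1.or (s1_sc T (ptg (k 0) s1') (pta (ptg (k 0) a1) (ptg (k 0) (k 1)))) ?_
  refine S1.or (s1_sc T (ptg (k 1) a1) (ptg (k 1) (k 0))) ?_
  refine S1.or (s1_sc T (ptm (ptg (k 2) a1) (ptg (k 2) a1)) (pta (ptg (k 2) s1') (ptg (k 0) (k 2)))) ?_
  refine S1.or (s1_sc (hst 0) (ptg (k 3) a1) (ptg (k 0) (k 1))) ?_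
  refine S1.or (s1_sc (hst 1) (ptm (ptg (k 3) a1) (ptg (k 3) a1)) (ptg (k 2) d1)) ?_
  refine S1.or (s1_sc (hst 2) (ptm (ptg (k 3) a1) (ptg (k 3) a1))
    (ptm (ptg (k 1) (k 0)) (ptg (k 2) d1))) ?_
  refine S1.or (s1_sc T (ptg (k 4) (k _)) (ptg (k 0) (k 0))) ?_
  refine S1.or (s1_sc T (ptg (k 4) hcons) (pta (ptg (k 0) a1) (ptm (ptg (k 2) (k 0)) (ptg (k 4) a2)))) ?_
  refine S1.or (s1_sc hgd (ptm (ptg (k 5) a1) (pta (ptg (k 4) k1) (ptm (ptg (k 1) (k 0))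
    (ptg (k 4) k2)))) (ptg (k 0) (k 1))) ?_
  refine S1.or (s1_sc hgd.not (ptg (k 5) a1) (ptg (k 0) (k 0))) ?_
  exact s1_sc T (ptg six a2) (ptg (k 0) (k 0))

theorem mem_prim {β : Type*} [Primcodable β] {f : α → List β} {g : α → β} (hf : Primrec f)
    (hg : Primrec g) : PrimrecPred fun a => g a ∈ f a := by
  have : PrimrecPred fun a => ∃ b ∈ f a, b = g a :=
    PP.ex_mem (p := fun a b => b = g a) (Primrec.eq.comp Primrec.snd (hg.comp Primrec.fst)) hf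
  exact this.of_eq (by simp)

/-- one step of a derivation -/
def Stp (D : List (ℕ × ℕ)) (x : ℕ × ℕ) : Prop :=
  x.1 = x.2 ∨ (x.2, x.1) ∈ D ∨ (∃ u : ℕ, (x.1, u) ∈ D ∧ (u, x.2) ∈ D) ∨
  (∃ q : (ℕ × ℕ) × (ℕ × ℕ), (q.1 ∈ D ∧ q.2 ∈ D) ∧ ta q.1.1 q.2.1 = x.1 ∧ ta q.1.2 q.2.2 = x.2) ∨
  (∃ q : (ℕ × ℕ) × (ℕ × ℕ), (q.1 ∈ D ∧ q.2 ∈ D) ∧ tm q.1.1 q.2.1 = x.1 ∧ tm q.1.2 q.2.2 = x.2) ∨
  Ax x

theorem s1_Stp : S1 fun x : List (ℕ × ℕ) × (ℕ × ℕ) => Stp x.1 x.2 := by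
  unfold Stp
  have b1 : Primrec fun x : List (ℕ × ℕ) × (ℕ × ℕ) => x.2.1 := Primrec.fst.comp Primrec.snd
  have b2 : Primrec fun x : List (ℕ × ℕ) × (ℕ × ℕ) => x.2.2 := Primrec.snd.comp Primrec.snd
  refine S1.or (S1.of_prim (Primrec.eq.comp b1 b2)) ?_
  refine S1.or (S1.of_prim (mem_prim Primrec.fst (b2.pair b1))) ?_
  refine S1.or (S1.ex (p := fun (x : List (ℕ × ℕ) × (ℕ × ℕ)) (u : ℕ) =>
    (x.2.1, u) ∈ x.1 ∧ (u, x.2.2) ∈ x.1) (S1.of_prim (PrimrecPred.and ?_ ?_))) ?_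
  · exact mem_prim (Primrec.fst.comp Primrec.fst) ((b1.comp Primrec.fst).pair Primrec.snd)
  · exact mem_prim (Primrec.fst.comp Primrec.fst) (Primrec.snd.pair (b2.comp Primrec.fst))
  have c1 : Primrec fun y : (List (ℕ × ℕ) × (ℕ × ℕ)) × ((ℕ × ℕ) × (ℕ × ℕ)) => y.2.1 :=
    Primrec.fst.comp Primrec.snd
  have c2 : Primrec fun y : (List (ℕ × ℕ) × (ℕ × ℕ)) × ((ℕ × ℕ) × (ℕ × ℕ)) => y.2.2 :=
    Primrec.snd.comp Primrec.snd
  have hm : PrimrecPred fun y : (List (ℕ × ℕ) × (ℕ × ℕ)) × ((ℕ × ℕ) × (ℕ × ℕ)) =>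
      y.2.1 ∈ y.1.1 ∧ y.2.2 ∈ y.1.1 :=
    PrimrecPred.and (mem_prim (Primrec.fst.comp Primrec.fst) c1)
      (mem_prim (Primrec.fst.comp Primrec.fst) c2)
  refine S1.or (S1.ex (p := fun (x : List (ℕ × ℕ) × (ℕ × ℕ)) (q : (ℕ × ℕ) × (ℕ × ℕ)) =>
    (q.1 ∈ x.1 ∧ q.2 ∈ x.1) ∧ ta q.1.1 q.2.1 = x.2.1 ∧ ta q.1.2 q.2.2 = x.2.2)
    (S1.of_prim (PrimrecPred.and hm (PrimrecPred.and ?_ ?_)))) ?_
  · exact Primrec.eq.comp (pta (Primrec.fst.comp c1) (Primrec.fst.comp c2)) (b1.comp Primrec.fst)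
  · exact Primrec.eq.comp (pta (Primrec.snd.comp c1) (Primrec.snd.comp c2)) (b2.comp Primrec.fst)
  refine S1.or (S1.ex (p := fun (x : List (ℕ × ℕ) × (ℕ × ℕ)) (q : (ℕ × ℕ) × (ℕ × ℕ)) =>
    (q.1 ∈ x.1 ∧ q.2 ∈ x.1) ∧ tm q.1.1 q.2.1 = x.2.1 ∧ tm q.1.2 q.2.2 = x.2.2)
    (S1.of_prim (PrimrecPred.and hm (PrimrecPred.and ?_ ?_)))) ?_
  · exact Primrec.eq.comp (ptm (Primrec.fst.comp c1) (Primrec.fst.comp c2)) (b1.comp Primrec.fst)
  · exact Primrec.eq.comp (ptm (Primrec.snd.comp c1) (Primrec.snd.comp c2)) (b2.comp Primrec.fst)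
  exact s1_Ax.comp Primrec.snd

end prim

theorem Stp.mono {D E : List (ℕ × ℕ)} (h : ∀ x ∈ D, x ∈ E) {x : ℕ × ℕ} (hx : Stp D x) :
    Stp E x := by
  rcases hx with h1 | h1 | ⟨u, h1, h2⟩ | ⟨q, ⟨h1, h2⟩, h3⟩ | ⟨q, ⟨h1, h2⟩, h3⟩ | h1
  · exact Or.inl h1
  · exact Or.inr (Or.inl (h _ h1))
  · exact Or.inr (Or.inr (Or.inl ⟨u, h _ h1, h _ h2⟩))
  · exact Or.inr (Or.inr (Or.inr (Or.inl ⟨q, ⟨h _ h1, h _ h2⟩, h3⟩)))
  · exact Or.inr (Or.inr (Or.inr (Or.inr (Or.inl ⟨q, ⟨h _ h1, h _ h2⟩, h3⟩))))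
  · exact Or.inr (Or.inr (Or.inr (Or.inr (Or.inr h1))))

/-- derivations -/
def Der : List (ℕ × ℕ) → Prop
  | [] => True
  | x :: D => Stp D x ∧ Der D

theorem Der.append {D E : List (ℕ × ℕ)} (hD : Der D) (hE : Der E) : Der (D ++ E) := by
  induction D with
  | nil => exact hE
  | cons x D ih =>
    exact ⟨hD.1.mono fun y hy => List.mem_append_left _ hy, ih hD.2⟩

theorem Der.sound {D : List (ℕ × ℕ)} (hD : Der D) : ∀ x ∈ D, Eqv x.1 x.2 := by
  induction D with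
  | nil => simp
  | cons x D ih =>
    intro y hy
    have ih := ih hD.2
    rcases List.mem_cons.1 hy with rfl | hy
    · rcases hD.1 with h1 | h1 | ⟨u, h1, h2⟩ | ⟨q, ⟨h1, h2⟩, h3, h4⟩ | ⟨q, ⟨h1, h2⟩, h3, h4⟩ | h1
      · rw [h1]; exact Eqv.refl _
      · exact (ih _ h1).symm
      · exact (ih _ h1).trans (ih _ h2)
      · rw [← h3, ← h4]; exact Eqv.cta (ih _ h1) (ih _ h2)
      · rw [← h3, ← h4]; exact Eqv.ctm (ih _ h1) (ih _ h2)
      · exact Eqv.ax h1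
    · exact ih y hy

theorem Der.complete {s t : ℕ} (h : Eqv s t) : ∃ D, Der D ∧ (s, t) ∈ D := by
  induction h with
  | refl t => exact ⟨[(t, t)], ⟨Or.inl rfl, trivial⟩, by simp⟩
  | @symm s t _ ih =>
    obtain ⟨D, h1, h2⟩ := ih
    exact ⟨(t, s) :: D, ⟨Or.inr (Or.inl h2), h1⟩, by simp⟩
  | @trans s t u _ _ ih1 ih2 =>
    obtain ⟨D, h1, h2⟩ := ih1
    obtain ⟨E, h3, h4⟩ := ih2
    exact ⟨(s, u) :: (D ++ E), ⟨Or.inr (Or.inr (Or.inl ⟨t, List.mem_append_left _ h2,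
      List.mem_append_right _ h4⟩)), h1.append h3⟩, by simp⟩
  | @cta a b c d _ _ ih1 ih2 =>
    obtain ⟨D, h1, h2⟩ := ih1
    obtain ⟨E, h3, h4⟩ := ih2
    exact ⟨(ta a b, ta c d) :: (D ++ E), ⟨Or.inr (Or.inr (Or.inr (Or.inl ⟨((a, c), (b, d)),
      ⟨List.mem_append_left _ h2, List.mem_append_right _ h4⟩, rfl, rfl⟩))), h1.append h3⟩, by simp⟩
  | @ctm a b c d _ _ ih1 ih2 =>
    obtain ⟨D, h1, h2⟩ := ih1
    obtain ⟨E, h3, h4⟩ := ih2
    exact ⟨(tm a b, tm c d) :: (D ++ E), ⟨Or.inr (Or.inr (Or.inr (Or.inr (Or.inl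
      ⟨((a, c), (b, d)), ⟨List.mem_append_left _ h2, List.mem_append_right _ h4⟩, rfl, rfl⟩)))),
      h1.append h3⟩, by simp⟩
  | @ax s t h => exact ⟨[(s, t)], ⟨Or.inr (Or.inr (Or.inr (Or.inr (Or.inr h)))), trivial⟩, by simp⟩

theorem der_iff (D : List (ℕ × ℕ)) : Der D ↔
    ∀ i < D.length, Stp (D.drop (i + 1)) (D.getD i (0, 0)) := by
  induction D with
  | nil => simp [Der]
  | cons x D ih =>
    rw [Der, ih]
    constructor
    · rintro ⟨h1, h2⟩ i hi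
      rcases i with _ | i
      · simpa using h1
      · simpa using h2 i (by simpa using hi)
    · intro h
      refine ⟨by simpa using h 0 (by simp), fun i hi => ?_⟩
      simpa using h (i + 1) (by simpa using hi)

theorem drop_prim {β : Type*} [Primcodable β] (d : β) :
    Primrec₂ fun (L : List β) (n : ℕ) => L.drop n := by
  have : Primrec fun x : List β × ℕ =>
      (List.range (x.1.length - x.2)).map fun i => x.1.getD (x.2 + i) d := by
    refine Primrec.list_map (Primrec.list_range.comp (Primrec.nat_sub.comp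
      (Primrec.list_length.comp Primrec.fst) Primrec.snd)) ?_
    exact (Primrec.list_getD d).comp (Primrec.fst.comp Primrec.fst)
      (Primrec.nat_add.comp (Primrec.snd.comp Primrec.fst) Primrec.snd)
  refine this.of_eq fun x => ?_
  refine List.ext_getElem (by simp) fun i h5 h6 => ?_
  simp at h5
  simp [List.getD, List.getElem?_eq_getElem (show x.2 + i < x.1.length by omega)]

theorem s1_Der : S1 Der := by
  have h1 : S1 fun D : List (ℕ × ℕ) => ∀ i < D.length, Stp (D.drop (i + 1)) (D.getD i (0, 0)) := by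
    refine S1.all_lt (α := List (ℕ × ℕ)) (p := fun D i => Stp (D.drop (i + 1)) (D.getD i (0, 0)))
      (f := fun D => D.length) ?_ Primrec.list_length
    exact s1_Stp.comp (f := fun x : List (ℕ × ℕ) × ℕ => (x.1.drop (x.2 + 1), x.1.getD x.2 (0, 0)))
      (((drop_prim (0, 0)).comp Primrec.fst (Primrec.succ.comp Primrec.snd)).pair
        ((Primrec.list_getD (0, 0)).comp Primrec.fst Primrec.snd))
  exact h1.of_eq fun D => (der_iff D).symm

/-- Provable equality is computably enumerable. -/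
theorem s1_Eqv : S1 fun x : ℕ × ℕ => Eqv x.1 x.2 := by
  have h1 : S1 fun x : ℕ × ℕ => ∃ D : List (ℕ × ℕ), Der D ∧ x ∈ D := by
    refine S1.ex (p := fun (x : ℕ × ℕ) (D : List (ℕ × ℕ)) => Der D ∧ x ∈ D)
      (S1.and (s1_Der.comp Primrec.snd) (S1.of_prim (mem_prim Primrec.snd Primrec.fst)))
  refine h1.of_eq fun x => ?_
  constructor
  · rintro ⟨D, hD, hx⟩
    exact hD.sound x hx
  · intro h
    exact Der.complete h

end Pool.Agent.Y548.OF
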